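import Pool.Agent.T9h45.LD.Spec

/-!
# Piece (E2) of the project LD: edges inside big classes
-/

set_option autoImplicit false

namespace Pool.Agent.T9h14.LD

open Finset Classical Pool.T9h45.HY Pool.T9h45.CP Pool.T9h45.LD

theorem par (r : ℕ) (hr : r < 2) (n : ℕ) :
    ((range n).filter (fun c => c % 2 = r)).card = (n + 1 - r) / 2 := by
  induction n with
  | zero =>
    have : (0 + 1 - r) / 2 = 0 := by omega
    rw [this]
    simp
  | succ n ih =>
    rw [range_add_one, filter_insert]
    split_ifs with h
    · rw [card_insert_of_notMem (by simp), ih]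
      interval_cases r <;> omega
    · rw [ih]
      interval_cases r <;> omega

theorem cnt {V : Type} (H : Finset V) (f : V → ℕ) (C : Finset ℕ) (t : ℕ)
    (h1 : ∀ c ∈ C, ∃ w ∈ H, f w = c)
    (h2 : ∀ c ∈ C, c < t → ∃ w ∈ H, ∃ w' ∈ H, w ≠ w' ∧ f w = c ∧ f w' = c) :
    C.card + (C.filter (fun c => c < t)).card ≤ (H.filter (fun z => f z ∈ C)).card := by
  have e : (H.filter (fun z => f z ∈ C)).card =
      ∑ c ∈ C, ((H.filter (fun z => f z ∈ C)).filter (fun z => f z = c)).card :=
    card_eq_sum_card_fiberwise (fun z hz => (mem_filter.1 hz).2)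
  rw [e, card_filter, card_eq_sum_ones, ← sum_add_distrib]
  apply sum_le_sum
  intro c hc
  split_ifs with h
  · obtain ⟨w, hw, w', hw', hne, e1, e2⟩ := h2 c hc h
    calc 1 + 1 = ({w, w'} : Finset V).card := (card_pair hne).symm
      _ ≤ _ := card_le_card (by
        intro z hz
        simp only [mem_insert, mem_singleton] at hz
        rw [mem_filter, mem_filter]
        rcases hz with rfl | rfl
        · exact ⟨⟨hw, by rw [e1]; exact hc⟩, e1⟩
        · exact ⟨⟨hw', by rw [e2]; exact hc⟩, e2⟩)
  · obtain ⟨w, hw, e⟩ := h1 c hc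
    have : 0 < ((H.filter (fun z => f z ∈ C)).filter (fun z => f z = c)).card :=
      card_pos.2 ⟨w, by rw [mem_filter, mem_filter]; exact ⟨⟨hw, by rw [e]; exact hc⟩, e⟩⟩
    omega

/-- the number of neighbours of `x` on the other side which `x` does not like less than `y` -/
theorem side {V : Type} [Fintype V] (G : SimpleGraph V) (cl : V → V) (D h p : ℕ)
    (S big inn : V → Prop) (σ : V → V) (f : V → ℕ) (d : Dat G cl D h p S big inn σ f)
    (hex : ∀ v, big v → ∀ c < th h,
      (∃ w, cl w = cl v ∧ S w ∧ f w = c) ∧ ∃ w, cl w = cl v ∧ ¬ S w ∧ f w = c)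
    (x y : V) (hb : big x) (hc : cl y = cl x) (hy : ¬ (S y ↔ S x)) (L : ℕ)
    (C : Finset ℕ) (hC1 : ∀ c ∈ C, c < th h ∨ c < f y)
    (hC2 : ∀ z, ¬ (S z ↔ S x) → cl z = cl x → f z ∈ C →
      pf cl S big inn f D h x z < pf cl S big inn f D h x y)
    (hL : L ≤ C.card + (C.filter (fun c => c < th h)).card) :
    cn (fun z => z ≠ y ∧ ¬ (S z ↔ S x) ∧ G.Adj x z ∧
      pf cl S big inn f D h x y ≤ pf cl S big inn f D h x z) + 1 + L ≤
      h + cn (fun z => ¬ (S z ↔ S x) ∧ cl z = cl x) := by
  set H : Finset V := univ.filter (fun z => ¬ (S z ↔ S x) ∧ cl z = cl x) with hH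
  have memH : ∀ z, z ∈ H ↔ ¬ (S z ↔ S x) ∧ cl z = cl x := by
    intro z
    rw [hH, mem_filter]
    simp
  have hexw : ∀ c, c < th h → ∃ w ∈ H, f w = c := by
    intro c hc'
    obtain ⟨⟨w, w1, w2, w3⟩, ⟨v, v1, v2, v3⟩⟩ := hex x hb c hc'
    by_cases hs : S x
    · exact ⟨v, (memH v).2 ⟨by tauto, v1⟩, v3⟩
    · exact ⟨w, (memH w).2 ⟨by tauto, w1⟩, w3⟩
  have h1 : ∀ c ∈ C, ∃ w ∈ H, f w = c := by
    intro c hcC
    rcases hC1 c hcC with h' | h'
    · exact hexw c h'
    · obtain ⟨w, w1, w2, w3⟩ := d.fsurj y c h'
      exact ⟨w, (memH w).2 ⟨by tauto, w1.trans hc⟩, w3⟩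
  have h2 : ∀ c ∈ C, c < th h → ∃ w ∈ H, ∃ w' ∈ H, w ≠ w' ∧ f w = c ∧ f w' = c := by
    intro c _ hct
    obtain ⟨w, hw, hwc⟩ := hexw c hct
    have hw' := (memH w).1 hw
    have hbw : big w := (d.bigcl w x hw'.2).2 hb
    refine ⟨w, hw, σ w, (memH _).2 ⟨?_, (d.cls w).trans hw'.2⟩, ?_, hwc, (d.fs w).trans hwc⟩
    · have := d.Ss w
      have := hw'.1
      tauto
    · exact fun e => d.bpair w hbw (by omega) e.symm
  have key := cnt H f C (th h) h1 h2
  -- the three disjoint sets
  set A : Finset V := H.filter (fun z => z ≠ y ∧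
    pf cl S big inn f D h x y ≤ pf cl S big inn f D h x z) with hA
  set B : Finset V := H.filter (fun z => f z ∈ C) with hB
  have hyH : y ∈ H := (memH y).2 ⟨hy, hc⟩
  have hyB : y ∉ B := by
    intro hyB
    rw [hB, mem_filter] at hyB
    exact lt_irrefl _ (hC2 y hy hc hyB.2)
  have hAB : Disjoint A (insert y B) := by
    rw [Finset.disjoint_left]
    intro z hz hz'
    rw [hA, mem_filter] at hz
    rw [mem_insert] at hz'
    rcases hz' with rfl | hz'
    · exact hz.2.1 rfl
    · rw [hB, mem_filter] at hz'
      have := (memH z).1 hz.1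
      exact absurd (hC2 z this.1 this.2 hz'.2) (not_lt.2 hz.2.2)
  have hsub : A ∪ insert y B ⊆ H := by
    intro z hz
    rw [mem_union, mem_insert] at hz
    rcases hz with hz | rfl | hz
    · exact (mem_filter.1 hz).1
    · exact hyH
    · exact (mem_filter.1 hz).1
  have hcard : A.card + (B.card + 1) ≤ H.card := by
    calc A.card + (B.card + 1) = (A ∪ insert y B).card := by
          rw [card_union_of_disjoint hAB, card_insert_of_notMem hyB]
      _ ≤ H.card := card_le_card hsub
  have hout := d.hout x
  have hfirst : cn (fun z => z ≠ y ∧ ¬ (S z ↔ S x) ∧ G.Adj x z ∧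
      pf cl S big inn f D h x y ≤ pf cl S big inn f D h x z) ≤ cE G cl x + A.card := by
    unfold cn cE cn
    refine le_trans (card_le_card ?_) (card_union_le _ _)
    intro z hz
    simp only [mem_filter, mem_univ, true_and] at hz
    rw [mem_union]
    by_cases hcz : cl z = cl x
    · right
      rw [hA, mem_filter]
      exact ⟨(memH z).2 ⟨hz.2.1, hcz⟩, hz.1, hz.2.2.2⟩
    · left
      simp only [mem_filter, mem_univ, true_and]
      exact ⟨hz.2.2.1, hcz⟩
  have hN : cn (fun z => ¬ (S z ↔ S x) ∧ cl z = cl x) = H.card := by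
    unfold cn
    congr 1
    ext z
    rw [memH]
    simp only [mem_filter, mem_univ, true_and]
  rw [hN]
  omega

/-- the bound on the other side -/
noncomputable def bnd {V : Type} (S : V → Prop) (f : V → ℕ) (t : ℕ) (x y : V) : ℕ :=
  if t ≤ f y then t + f y else if t ≤ f x then 2 * f y
    else if (S x ↔ (f x + f y) % 2 = 1) then t + f y - 1 else f y - 1

theorem side2 {V : Type} [Fintype V] (G : SimpleGraph V) (cl : V → V) (D h p : ℕ)
    (S big inn : V → Prop) (σ : V → V) (f : V → ℕ) (d : Dat G cl D h p S big inn σ f)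
    (hex : ∀ v, big v → ∀ c < th h,
      (∃ w, cl w = cl v ∧ S w ∧ f w = c) ∧ ∃ w, cl w = cl v ∧ ¬ S w ∧ f w = c)
    (x y : V) (hb : big x) (hc : cl y = cl x) (hy : ¬ (S y ↔ S x)) :
    cn (fun z => z ≠ y ∧ ¬ (S z ↔ S x) ∧ G.Adj x z ∧
      pf cl S big inn f D h x y ≤ pf cl S big inn f D h x z) + 1 + bnd S f (th h) x y ≤
      h + cn (fun z => ¬ (S z ↔ S x) ∧ cl z = cl x) := by
  have hpf : ∀ z, cl z = cl x → pf cl S big inn f D h x z =
      if f x < th h then
        (if f z < th h then (if (S x ↔ (f x + f z) % 2 = 1) then th h + f z + 1 else f z + 1)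
          else 2 * th h + f z + 1)
      else f z + 1 := by
    intro z hz
    unfold pf
    rw [if_neg (by simpa using hz)]
    by_cases hx : f x < th h
    · rw [if_pos ⟨hb, hx⟩, if_pos hx]
    · rw [if_neg (fun H => hx H.2), if_neg hx]
  unfold bnd
  by_cases h1 : th h ≤ f y
  · rw [if_pos h1]
    refine side G cl D h p S big inn σ f d hex x y hb hc hy _ (range (f y)) ?_ ?_ ?_
    · intro c hc'
      right
      simpa using hc'
    · intro z _ hz2 hz3
      rw [mem_range] at hz3
      rw [hpf z hz2, hpf y hc]
      split_ifs <;> omega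
    · have : (range (f y)).filter (fun c => c < th h) = range (th h) := by
        ext c
        simp only [mem_filter, mem_range]
        omega
      rw [this, card_range, card_range]
      omega
  · rw [if_neg h1]
    push Not at h1
    by_cases h2 : th h ≤ f x
    · rw [if_pos h2]
      refine side G cl D h p S big inn σ f d hex x y hb hc hy _ (range (f y)) ?_ ?_ ?_
      · intro c hc'
        right
        simpa using hc'
      · intro z _ hz2 hz3
        rw [mem_range] at hz3
        rw [hpf z hz2, hpf y hc, if_neg (by omega), if_neg (by omega)]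
        omega
      · have : (range (f y)).filter (fun c => c < th h) = range (f y) := by
          ext c
          simp only [mem_filter, mem_range]
          omega
        rw [this, card_range]
        omega
    · rw [if_neg h2]
      push Not at h2
      have hr : f y % 2 < 2 := Nat.mod_lt _ (by norm_num)
      have hr' : (f y + 1) % 2 < 2 := Nat.mod_lt _ (by norm_num)
      have hE : (range (f y)).filter (fun c => c % 2 = f y % 2) =
          ((range (f y)).filter (fun c => c % 2 = f y % 2)).filter (fun c => c < th h) := by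
        ext c
        simp only [mem_filter, mem_range]
        omega
      have hcE := par (f y % 2) hr (f y)
      by_cases h3 : (S x ↔ (f x + f y) % 2 = 1)
      · rw [if_pos h3]
        set C1 : Finset ℕ := (range (th h)).filter (fun c => c % 2 = (f y + 1) % 2) with hC1
        set C2 : Finset ℕ := (range (f y)).filter (fun c => c % 2 = f y % 2) with hC2
        have hd : Disjoint C1 C2 := by
          rw [Finset.disjoint_left]
          intro c h h'
          rw [hC1, mem_filter] at h
          rw [hC2, mem_filter] at h'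
          omega
        refine side G cl D h p S big inn σ f d hex x y hb hc hy _ (C1 ∪ C2) ?_ ?_ ?_
        · intro c hc'
          rw [mem_union, hC1, hC2, mem_filter, mem_filter, mem_range, mem_range] at hc'
          omega
        · intro z _ hz2 hz3
          rw [mem_union, hC1, hC2, mem_filter, mem_filter, mem_range, mem_range] at hz3
          rw [hpf z hz2, hpf y hc, if_pos h2, if_pos h2, if_pos h1, if_pos h3]
          have hzt : f z < th h := by omega
          rw [if_pos hzt]
          rcases hz3 with ⟨_, hz4⟩ | ⟨hz3, hz4⟩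
          · have : ¬ (S x ↔ (f x + f z) % 2 = 1) := by
              intro h5
              have h6 : (f x + f y) % 2 = 1 ↔ (f x + f z) % 2 = 1 := h3.symm.trans h5
              omega
            rw [if_neg this]
            omega
          · split_ifs <;> omega
        · have : (C1 ∪ C2).filter (fun c => c < th h) = C1 ∪ C2 := by
            ext c
            rw [mem_filter, mem_union, hC1, hC2, mem_filter, mem_filter, mem_range, mem_range]
            omega
          rw [this, card_union_of_disjoint hd, hcE, hC1, par _ hr' (th h)]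
          have : th h = 8 * h + 8 := rfl
          omega
      · rw [if_neg h3]
        refine side G cl D h p S big inn σ f d hex x y hb hc hy _
          ((range (f y)).filter (fun c => c % 2 = f y % 2)) ?_ ?_ ?_
        · intro c hc'
          rw [mem_filter, mem_range] at hc'
          omega
        · intro z _ hz2 hz3
          rw [mem_filter, mem_range] at hz3
          rw [hpf z hz2, hpf y hc, if_pos h2, if_pos h2, if_pos h1, if_neg h3]
          have hzt : f z < th h := by omega
          rw [if_pos hzt]
          have : ¬ (S x ↔ (f x + f z) % 2 = 1) := by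
            intro h5
            apply h3
            rw [h5]
            omega
          rw [if_neg this]
          omega
        · rw [← hE, hcE]
          omega

theorem e2 : SE2 := by
  intro V _ G cl D h p S big inn σ f d hex x y hx hy hadj hcl hb
  have hby : big y := (d.bigcl x y hcl).1 hb
  have k1 := side2 G cl D h p S big inn σ f d hex x y hb hcl.symm (by tauto)
  have k2 := side2 G cl D h p S big inn σ f d hex y x hby hcl (by tauto)
  have e1 : cn (fun z => z ≠ y ∧ ¬ (S z ↔ S x) ∧ G.Adj x z ∧
      pf cl S big inn f D h x y ≤ pf cl S big inn f D h x z) =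
      cn (fun z => z ≠ y ∧ ¬ S z ∧ G.Adj x z ∧
      pf cl S big inn f D h x y ≤ pf cl S big inn f D h x z) := by
    congr 1
    funext z
    have : (¬ (S z ↔ S x)) = (¬ S z) := by
      apply propext
      tauto
    rw [this]
  have e2 : cn (fun z => z ≠ x ∧ ¬ (S z ↔ S y) ∧ G.Adj y z ∧
      pf cl S big inn f D h y x ≤ pf cl S big inn f D h y z) =
      cn (fun z => z ≠ x ∧ S z ∧ G.Adj y z ∧
      pf cl S big inn f D h y x ≤ pf cl S big inn f D h y z) := by
    congr 1
    funext z
    have : (¬ (S z ↔ S y)) = (S z) := by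
      apply propext
      tauto
    rw [this]
  rw [e1] at k1
  rw [e2] at k2
  have hsum : cn (fun z => ¬ (S z ↔ S x) ∧ cl z = cl x) +
      cn (fun z => ¬ (S z ↔ S y) ∧ cl z = cl y) ≤ cN cl x := by
    unfold cn cN cn
    rw [← card_union_of_disjoint]
    · apply card_le_card
      intro z hz
      simp only [mem_union, mem_filter, mem_univ, true_and] at hz ⊢
      rcases hz with hz | hz
      · exact hz.2
      · exact hz.2.trans hcl.symm
    · rw [Finset.disjoint_left]
      intro z hz hz'
      simp only [mem_filter, mem_univ, true_and] at hz hz'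
      tauto
  have hN := d.hn x
  have ht : th h = 8 * h + 8 := rfl
  unfold Edge
  have hb12 : f x + f y + th h ≤ bnd S f (th h) x y + bnd S f (th h) y x + 2 := by
    unfold bnd
    have hpar : (f x + f y) % 2 = (f y + f x) % 2 := by rw [add_comm]
    by_cases h1 : (f x + f y) % 2 = 1
    · have q1 : (S x ↔ (f x + f y) % 2 = 1) := by tauto
      have q2 : ¬ (S y ↔ (f y + f x) % 2 = 1) := by
        rw [← hpar]
        tauto
      rw [if_pos q1, if_neg q2]
      split_ifs <;> omega
    · have q1 : ¬ (S x ↔ (f x + f y) % 2 = 1) := by tauto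
      have q2 : (S y ↔ (f y + f x) % 2 = 1) := by
        rw [← hpar]
        tauto
      rw [if_neg q1, if_pos q2]
      split_ifs <;> omega
  omega

end Pool.Agent.T9h14.LD
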